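import Mathlib
import Pool.Agent.Q187.Exp.LurothFine

set_option autoImplicit false

/-!
# The dimensions of the asymptotic sets of the Lüroth map fill the interval `[0, 1/2]`
-/

open Filter Topology Set

namespace Pool.Agent.Results.MP_4648ce_an.Image

/-- The asymptotic set of `x` under the map `L`, inside `[0, 1]`. -/
def AS (L : ℝ → ℝ) (x : ℝ) : Set ℝ :=
  {y ∈ Icc (0 : ℝ) 1 | Tendsto (fun n : ℕ => |L^[n] x - L^[n] y|) atTop (𝓝 0)}

/-- For the Lüroth map `L` the image of `x ↦ dimH (AS L x)` on `[0, 1]` is the interval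
`[0, 1/2]`. -/
theorem result (L : ℝ → ℝ) (h0 : L 0 = 0)
    (hL : ∀ n : ℕ, 1 ≤ n → ∀ x ∈ Ioc (1 / ((n : ℝ) + 1)) (1 / (n : ℝ)),
      L x = n * (n + 1) * x - n) :
    (fun x => dimH (AS L x)) '' Icc (0 : ℝ) 1 = Icc (0 : ENNReal) (1 / 2) :=
  Pool.Agent.Q187.Exp.Luroth.image_right h0 hL

end Pool.Agent.Results.MP_4648ce_an.Image
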